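import Pool.Graph.R_pool_sql_team_seeded_3997aac3.Results.MP_e27144_an.AffineMaps
import Pool.Graph.R_pool_sql_team_seeded_843ab51a.V1194.TR.Bad

/-!
Lifts of totally ergodic measures under multiplications.
-/

set_option autoImplicit false

open MeasureTheory Filter Topology Set
open scoped ENNReal

namespace Pool.Agent.H50.UR

open Pool.Agent.W764.FB Pool.Agent.W764.SH Pool.Agent.H847R3.XpXq Pool.Agent.V11299.FG

/-- total ergodicity of the joint action of `×2`, `×3` -/
def TotErg (μ : Measure UnitAddCircle) : Prop :=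
  ∀ M : ℕ, 1 ≤ M → ∀ E : Set UnitAddCircle, MeasurableSet E →
    (fun x : UnitAddCircle => (2 ^ M) • x) ⁻¹' E = E →
    (fun x : UnitAddCircle => (3 ^ M) • x) ⁻¹' E = E → μ E = 0 ∨ μ E = 1

/-- translation of a measure -/
noncomputable def tr (t : UnitAddCircle) (ν : Measure UnitAddCircle) : Measure UnitAddCircle :=
  ν.map fun x => x + t

/-- multiplication of a measure -/
noncomputable def mu (k : ℕ) (ν : Measure UnitAddCircle) : Measure UnitAddCircle :=
  ν.map fun x : UnitAddCircle => k • x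

lemma tr_tr (s t : UnitAddCircle) (ν : Measure UnitAddCircle) : tr s (tr t ν) = tr (s + t) ν := by
  unfold tr
  rw [Measure.map_map (measurable_add_const s) (measurable_add_const t)]
  congr 1
  funext x
  show x + t + s = x + (s + t)
  abel

lemma tr_zero (ν : Measure UnitAddCircle) : tr 0 ν = ν := by
  unfold tr
  simp

lemma mu_tr (k : ℕ) (t : UnitAddCircle) (ν : Measure UnitAddCircle) : mu k (tr t ν) = tr (k • t) (mu k ν) := by
  unfold mu tr
  rw [Measure.map_map (meas_nsmul k) (measurable_add_const t),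
    Measure.map_map (measurable_add_const _) (meas_nsmul k)]
  congr 1
  funext x
  show k • (x + t) = k • x + k • t
  rw [smul_add]

lemma mu_mu (k l : ℕ) (ν : Measure UnitAddCircle) : mu k (mu l ν) = mu (k * l) ν := by
  unfold mu
  rw [Measure.map_map (meas_nsmul k) (meas_nsmul l)]
  congr 1
  funext x
  show k • l • x = (k * l) • x
  rw [mul_smul]

lemma mu_comm (k l : ℕ) (ν : Measure UnitAddCircle) : mu k (mu l ν) = mu l (mu k ν) := by
  rw [mu_mu, mu_mu, mul_comm]

lemma tr_inj {t : UnitAddCircle} {ν ν' : Measure UnitAddCircle} (h : tr t ν = tr t ν') : ν = ν' := by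
  have := congrArg (tr (-t)) h
  rwa [tr_tr, tr_tr, neg_add_cancel, tr_zero, tr_zero] at this

instance prob_tr (t : UnitAddCircle) (ν : Measure UnitAddCircle) [IsProbabilityMeasure ν] :
    IsProbabilityMeasure (tr t ν) := Measure.isProbabilityMeasure_map (measurable_add_const t).aemeasurable

instance prob_mu (k : ℕ) (ν : Measure UnitAddCircle) [IsProbabilityMeasure ν] :
    IsProbabilityMeasure (mu k ν) := Measure.isProbabilityMeasure_map (meas_nsmul k).aemeasurable

lemma mp_iff {k : ℕ} {ν : Measure UnitAddCircle} :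
    MeasurePreserving (fun x : UnitAddCircle => k • x) ν ν ↔ mu k ν = ν :=
  ⟨fun h => h.map_eq, fun h => ⟨meas_nsmul k, h⟩⟩

lemma mu_pow {k : ℕ} {ν : Measure UnitAddCircle} (h : mu k ν = ν) (M : ℕ) : mu (k ^ M) ν = ν := by
  induction M with
  | zero =>
    unfold mu
    simp
  | succ M ih => rw [pow_succ, ← mu_mu, h, ih]

/-- the comparison of two lifts -/
lemma lift_le {m : ℕ} (hm : 1 ≤ m) {ρ ν : Measure UnitAddCircle} (h : mu m ρ = mu m ν) :
    ρ ≤ mu1 m ν := by
  rw [Measure.le_iff]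
  intro s hs
  have hg : Measurable (s.indicator (1 : UnitAddCircle → ℝ≥0∞)) := measurable_one.indicator hs
  have h1 : ∀ x : UnitAddCircle, Fib m (s.indicator 1) (m • x) = fs m 1 (s.indicator 1) x := by
    intro x
    unfold Fib
    rw [fs_one_sec (by omega)]
  rw [← lintegral_indicator_one hs, ← lintegral_indicator_one hs, lintegral_mu1 m ν hg]
  calc ∫⁻ x, s.indicator 1 x ∂ρ ≤ ∫⁻ x, fs m 1 (s.indicator 1) x ∂ρ := by
        refine lintegral_mono fun x => ?_
        unfold fs
        rw [pow_one]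
        have h2 : s.indicator (1 : UnitAddCircle → ℝ≥0∞) x = s.indicator 1 (x + hh m 1 0) := by
          congr 1
          unfold hh
          simp
        rw [h2]
        exact Finset.single_le_sum (f := fun k => s.indicator (1 : UnitAddCircle → ℝ≥0∞) (x + hh m 1 k))
          (fun _ _ => zero_le) (Finset.mem_range.2 (by omega))
    _ = ∫⁻ x, Fib m (s.indicator 1) (m • x) ∂ρ := lintegral_congr fun x => (h1 x).symm
    _ = ∫⁻ x, Fib m (s.indicator 1) x ∂(mu m ρ) := by
        unfold mu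
        rw [lintegral_map (measurable_Fib m hg) (meas_nsmul m)]
    _ = ∫⁻ x, Fib m (s.indicator 1) (m • x) ∂ν := by
        rw [h]
        unfold mu
        rw [lintegral_map (measurable_Fib m hg) (meas_nsmul m)]
    _ = ∫⁻ x, fs m 1 (s.indicator 1) x ∂ν := lintegral_congr h1

/-- a lift is not singular to all the translates of another one -/
lemma exists_not_sing {m : ℕ} (hm : 1 ≤ m) {ρ ν : Measure UnitAddCircle} [IsProbabilityMeasure ρ]
    (h : mu m ρ = mu m ν) : ∃ k < m, ¬ (tr (hh m 1 k) ν ⟂ₘ ρ) := by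
  by_contra hcon
  push Not at hcon
  have h1 : mu1 m ν ⟂ₘ ρ := by
    unfold mu1
    have : ∀ s : Finset ℕ, (∀ k ∈ s, ν.map (fun x => x + hh m 1 k) ⟂ₘ ρ) →
        (∑ k ∈ s, ν.map (fun x => x + hh m 1 k)) ⟂ₘ ρ := by
      classical
      intro s
      induction s using Finset.induction_on with
      | empty =>
        intro _
        rw [Finset.sum_empty]
        exact Measure.MutuallySingular.zero_left
      | insert a s ha ih =>
        intro hs
        rw [Finset.sum_insert ha]
        exact (hs a (Finset.mem_insert_self a s)).add_left (ih fun k hk => hs k (Finset.mem_insert_of_mem hk))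
    exact this _ fun k hk => hcon k (Finset.mem_range.1 hk)
  have h2 : ρ ⟂ₘ ρ := h1.mono (lift_le hm h) le_rfl
  have h3 := (Measure.MutuallySingular.self_iff _).1 h2
  have h4 : ρ univ = 1 := measure_univ
  rw [h3] at h4
  simp at h4

/-- the measure on an invariant set with finitely many points over almost all points -/
lemma lift_of_set {k : ℕ} (hk : 1 ≤ k) {μ : Measure UnitAddCircle} [IsProbabilityMeasure μ]
    {A : Set UnitAddCircle} (hA : MeasurableSet A) {j₀ : ℕ} (hj1 : 1 ≤ j₀)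
    (hAj : ∀ᵐ x ∂μ, Fib k (A.indicator 1) x = j₀) :
    ∃ ν : Measure UnitAddCircle, IsProbabilityMeasure ν ∧ mu k ν = μ ∧
      (∀ s : ℕ, Nat.Coprime k s → (fun x : UnitAddCircle => s • x) ⁻¹' A = A → mu s μ = μ → mu s ν = ν) ∧
      ∀ B : Set UnitAddCircle, MeasurableSet B →
        ν B = (j₀ : ℝ≥0∞)⁻¹ * ∫⁻ x, Fib k ((A ∩ B).indicator 1) x ∂μ := by
  have hj0 : (j₀ : ℝ≥0∞) ≠ 0 := by
    have : j₀ ≠ 0 := by omega
    exact_mod_cast this
  have hjt : (j₀ : ℝ≥0∞) ≠ ⊤ := ENNReal.natCast_ne_top _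
  set ν : Measure UnitAddCircle := (j₀ : ℝ≥0∞)⁻¹ • (mu1 k (μ.map (sec (k : ℤ)))).restrict A with hν
  have hint : ∀ g : UnitAddCircle → ℝ≥0∞, Measurable g →
      ∫⁻ y, g y ∂ν = (j₀ : ℝ≥0∞)⁻¹ * ∫⁻ x, Fib k (fun y => g y * A.indicator 1 y) x ∂μ := by
    intro g hg
    rw [hν, lintegral_smul_measure, smul_eq_mul, ← lintegral_indicator hA]
    have hm : Measurable (A.indicator g) := hg.indicator hA
    rw [lintegral_mu1 k _ hm, lintegral_map (measurable_fs k 1 hm) (meas_sec k)]
    congr 2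
    funext x
    unfold Fib
    congr 1
    funext y
    by_cases hy : y ∈ A
    · rw [indicator_of_mem hy, indicator_of_mem hy, Pi.one_apply, mul_one]
    · rw [indicator_of_notMem hy, indicator_of_notMem hy, mul_zero]
  have hmap : ν.map (fun x : UnitAddCircle => k • x) = μ := by
    refine Measure.ext_of_lintegral _ fun g hg => ?_
    rw [lintegral_map hg (meas_nsmul k), hint (fun y => g (k • y)) (hg.comp (meas_nsmul k))]
    have e : ∀ᵐ x ∂μ, Fib k (fun y => g (k • y) * A.indicator 1 y) x = g x * j₀ := by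
      filter_upwards [hAj] with x hx
      rw [Fib_mul hk, hx]
    rw [lintegral_congr_ae e, lintegral_mul_const' _ _ hjt, mul_comm, mul_assoc,
      ENNReal.mul_inv_cancel hj0 hjt, mul_one]
  refine ⟨ν, ?_, hmap, ?_, ?_⟩
  · refine ⟨?_⟩
    have h1 : (ν.map (fun x : UnitAddCircle => k • x)) univ = 1 := by rw [hmap, measure_univ]
    rwa [Measure.map_apply (meas_nsmul k) MeasurableSet.univ, preimage_univ] at h1
  · intro s hs hsA hsμ
    have hsμ' := mp_iff.2 hsμ
    unfold mu
    refine Measure.ext_of_lintegral _ fun g hg => ?_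
    rw [lintegral_map hg (meas_nsmul s), hint (fun y => g (s • y)) (hg.comp (meas_nsmul s)), hint _ hg]
    congr 1
    have hm : Measurable fun y => g y * A.indicator (1 : UnitAddCircle → ℝ≥0∞) y :=
      hg.mul (measurable_one.indicator hA)
    rw [← hsμ'.lintegral_comp (measurable_Fib k hm)]
    refine lintegral_congr fun x => ?_
    rw [← Fib_comp hk hs]
    congr 1
    funext y
    rw [ind_inv hsA y]
  · intro B hB
    rw [← lintegral_indicator_one hB, hint _ (measurable_one.indicator hB)]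
    congr 2
    funext x
    congr 1
    funext y
    by_cases hyA : y ∈ A
    · by_cases hyB : y ∈ B
      · rw [indicator_of_mem hyA, indicator_of_mem hyB,
          indicator_of_mem (show y ∈ A ∩ B from ⟨hyA, hyB⟩)]
        simp
      · rw [indicator_of_notMem hyB,
          indicator_of_notMem (show y ∉ A ∩ B from fun h => hyB h.2), zero_mul]
    · rw [indicator_of_notMem hyA,
        indicator_of_notMem (show y ∉ A ∩ B from fun h => hyA h.1), mul_zero]

lemma pre_pow {s : ℕ} {A : Set UnitAddCircle} (h : (fun x : UnitAddCircle => s • x) ⁻¹' A = A) (n : ℕ) :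
    (fun x : UnitAddCircle => (s ^ n) • x) ⁻¹' A = A := by
  induction n with
  | zero =>
    ext x
    simp
  | succ n ih =>
    ext x
    have h1 : (s ^ (n + 1)) • x ∈ A ↔ (s ^ n) • x ∈ A := by
      have : (s ^ (n + 1)) • x = s • ((s ^ n) • x) := by rw [← mul_smul, pow_succ, mul_comm]
      rw [this, ← mem_preimage (f := fun x : UnitAddCircle => s • x), h]
    show (s ^ (n + 1)) • x ∈ A ↔ x ∈ A
    rw [h1, ← mem_preimage (f := fun x : UnitAddCircle => (s ^ n) • x), ih]

/-- a lift which is ergodic for all the powers -/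
lemma exists_lift {m : ℕ} (hm : 1 ≤ m) (hm2 : Nat.Coprime m 2) (hm3 : Nat.Coprime m 3)
    {μ : Measure UnitAddCircle} [IsProbabilityMeasure μ] (h2 : mu 2 μ = μ) (h3 : mu 3 μ = μ)
    (hT : TotErg μ) : ∃ (ν : Measure UnitAddCircle) (N : ℕ), IsProbabilityMeasure ν ∧ mu m ν = μ ∧
      1 ≤ N ∧ mu (2 ^ N) ν = ν ∧ mu (3 ^ N) ν = ν ∧ TotErg ν := by
  classical
  have hex : ∃ j : ℕ, 1 ≤ j ∧ ∃ N : ℕ, 1 ≤ N ∧ ∃ A : Set UnitAddCircle, MeasurableSet A ∧
      (fun x : UnitAddCircle => (2 ^ N) • x) ⁻¹' A = A ∧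
      (fun x : UnitAddCircle => (3 ^ N) • x) ⁻¹' A = A ∧ ∀ᵐ x ∂μ, Fib m (A.indicator 1) x = j := by
    refine ⟨m, hm, 1, le_rfl, univ, MeasurableSet.univ, rfl, rfl, Eventually.of_forall fun x => ?_⟩
    unfold Fib fs
    simp
  set j₀ := Nat.find hex with hj₀
  obtain ⟨hj1, N, hN, A, hA, hAp, hAq, hAj⟩ := Nat.find_spec hex
  have hmin : ∀ j : ℕ, 1 ≤ j → ∀ N : ℕ, 1 ≤ N → ∀ B : Set UnitAddCircle, MeasurableSet B →
      (fun x : UnitAddCircle => (2 ^ N) • x) ⁻¹' B = B →
      (fun x : UnitAddCircle => (3 ^ N) • x) ⁻¹' B = B →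
      (∀ᵐ x ∂μ, Fib m (B.indicator 1) x = j) → j₀ ≤ j := by
    intro j hj N hN B hB hBp hBq hBj
    exact Nat.find_min' hex ⟨hj, N, hN, B, hB, hBp, hBq, hBj⟩
  obtain ⟨ν, hν1, hν2, hν3, hν4⟩ := lift_of_set hm hA hj1 hAj
  have hj0 : (j₀ : ℝ≥0∞) ≠ 0 := by
    have : j₀ ≠ 0 := by omega
    exact_mod_cast this
  have hjt : (j₀ : ℝ≥0∞) ≠ ⊤ := ENNReal.natCast_ne_top _
  refine ⟨ν, N, hν1, hν2, hN, hν3 _ (Nat.Coprime.pow_right N hm2) hAp (mu_pow h2 N),
    hν3 _ (Nat.Coprime.pow_right N hm3) hAq (mu_pow h3 N), ?_⟩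
  intro M hM B hB hBp hBq
  have hABm : MeasurableSet (A ∩ B) := hA.inter hB
  have hABp : (fun x : UnitAddCircle => (2 ^ (N * M)) • x) ⁻¹' (A ∩ B) = A ∩ B := by
    rw [preimage_inter]
    congr 1
    · rw [pow_mul]; exact pre_pow hAp M
    · rw [mul_comm N M, pow_mul]; exact pre_pow hBp N
  have hABq : (fun x : UnitAddCircle => (3 ^ (N * M)) • x) ⁻¹' (A ∩ B) = A ∩ B := by
    rw [preimage_inter]
    congr 1
    · rw [pow_mul]; exact pre_pow hAq M
    · rw [mul_comm N M, pow_mul]; exact pre_pow hBq N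
  have hNM : 1 ≤ N * M := Nat.mul_pos hN hM
  obtain ⟨j, hj⟩ := exists_count (p := 2 ^ (N * M)) (q := 3 ^ (N * M)) hm
    (Nat.Coprime.pow_right _ hm2) (Nat.Coprime.pow_right _ hm3) (hT _ hNM) hABm hABp hABq
  have hval : ν B = (j₀ : ℝ≥0∞)⁻¹ * j := by
    rw [hν4 B hB, lintegral_congr_ae hj, lintegral_const, measure_univ, mul_one]
  rcases Nat.eq_zero_or_pos j with hj0' | hjpos
  · left
    rw [hval, hj0', Nat.cast_zero, mul_zero]
  · right
    have h1 := hmin j hjpos _ hNM _ hABm hABp hABq hj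
    have h2 : j ≤ j₀ := by
      obtain ⟨x, hx1, hx2⟩ := (hj.and hAj).exists
      have h3 : Fib m ((A ∩ B).indicator 1) x ≤ Fib m (A.indicator 1) x := by
        refine Fib_mono (fun y => ?_) x
        exact indicator_le_indicator_of_subset inter_subset_left (fun _ => zero_le) y
      rw [hx1, hx2] at h3
      exact_mod_cast h3
    rw [hval, le_antisymm h2 h1, ENNReal.inv_mul_cancel hj0 hjt]

end Pool.Agent.H50.UR
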