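import Pool.Agent.H50.UR.Root

/-!
The ergodic lifts of a totally ergodic measure.
-/

set_option autoImplicit false

open MeasureTheory Filter Topology Set
open scoped ENNReal

namespace Pool.Agent.H50.UR

open Pool.Agent.W764.FB Pool.Agent.W764.SH Pool.Agent.H847R3.XpXq Pool.Agent.V11299.FG

/-- the average of the translates over an orbit -/
noncomputable def orb (m : ℕ) (t : UnitAddCircle) (ν : Measure UnitAddCircle) : Measure UnitAddCircle :=
  ((m.totient : ℝ≥0∞) * m.totient)⁻¹ •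
    ∑ a ∈ Finset.range m.totient, ∑ b ∈ Finset.range m.totient, tr ((2 ^ a * 3 ^ b) • t) ν

lemma map_sum_fin {ι : Type} (s : Finset ι) (f : ι → Measure UnitAddCircle) {g : UnitAddCircle → UnitAddCircle}
    (hg : Measurable g) : (∑ i ∈ s, f i).map g = ∑ i ∈ s, (f i).map g := by
  classical
  induction s using Finset.induction_on with
  | empty => simp
  | insert a s ha ih => rw [Finset.sum_insert ha, Finset.sum_insert ha, Measure.map_add _ _ hg, ih]

/-- a cyclic shift of a sum over a period -/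
lemma cyc {M : Type} [AddCommMonoid M] {e : ℕ} (he : 1 ≤ e) (F : ℕ → M) (h : F e = F 0) :
    ∑ a ∈ Finset.range e, F (a + 1) = ∑ a ∈ Finset.range e, F a := by
  obtain ⟨e, rfl⟩ : ∃ k, e = k + 1 := ⟨e - 1, by omega⟩
  rw [Finset.sum_range_succ, Finset.sum_range_succ' F, h]

variable {m : ℕ}

lemma orb_prob (hm : 1 ≤ m) (t : UnitAddCircle) (ν : Measure UnitAddCircle) [IsProbabilityMeasure ν] :
    IsProbabilityMeasure (orb m t ν) := by
  have hφ : 1 ≤ m.totient := Nat.totient_pos.2 hm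
  have h0 : (m.totient : ℝ≥0∞) ≠ 0 := by
    have : m.totient ≠ 0 := by omega
    exact_mod_cast this
  have ht : (m.totient : ℝ≥0∞) ≠ ⊤ := ENNReal.natCast_ne_top _
  refine ⟨?_⟩
  unfold orb
  rw [Measure.smul_apply, Measure.finsetSum_apply]
  have : ∀ a ∈ Finset.range m.totient, (∑ b ∈ Finset.range m.totient, tr ((2 ^ a * 3 ^ b) • t) ν) univ =
      m.totient := by
    intro a _
    rw [Measure.finsetSum_apply]
    simp
  rw [Finset.sum_congr rfl this, Finset.sum_const, Finset.card_range, nsmul_eq_mul, smul_eq_mul,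
    ENNReal.inv_mul_cancel (mul_ne_zero h0 h0) (ENNReal.mul_ne_top ht ht)]

lemma orb_two (hm : 1 ≤ m) (hm2 : Nat.Coprime m 2) {t : UnitAddCircle} (ht : m • t = 0)
    {ν : Measure UnitAddCircle} (h : mu 2 ν = ν) : mu 2 (orb m t ν) = orb m t ν := by
  have hφ : 1 ≤ m.totient := Nat.totient_pos.2 hm
  unfold orb
  have e : mu 2 (((m.totient : ℝ≥0∞) * m.totient)⁻¹ •
      ∑ a ∈ Finset.range m.totient, ∑ b ∈ Finset.range m.totient, tr ((2 ^ a * 3 ^ b) • t) ν) =
      ((m.totient : ℝ≥0∞) * m.totient)⁻¹ •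
      ∑ a ∈ Finset.range m.totient, ∑ b ∈ Finset.range m.totient, tr ((2 ^ (a + 1) * 3 ^ b) • t) ν := by
    have h1 : ∀ σ : Measure UnitAddCircle, mu 2 σ = σ.map (fun x : UnitAddCircle => 2 • x) := fun σ => rfl
    rw [h1, Measure.map_smul, map_sum_fin _ _ (meas_nsmul 2)]
    congr 1
    refine Finset.sum_congr rfl fun a _ => ?_
    rw [map_sum_fin _ _ (meas_nsmul 2)]
    refine Finset.sum_congr rfl fun b _ => ?_
    rw [← h1, mu_tr, h, ← mul_smul]
    congr 2
    ring
  rw [e]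
  congr 1
  refine cyc hφ (fun a => ∑ b ∈ Finset.range m.totient, tr ((2 ^ a * 3 ^ b) • t) ν) ?_
  refine Finset.sum_congr rfl fun b _ => ?_
  have h2 := fix_pow (K := 1) hm2.symm ht
  rw [mul_one] at h2
  show tr ((2 ^ m.totient * 3 ^ b) • t) ν = tr ((2 ^ 0 * 3 ^ b) • t) ν
  rw [pow_zero, one_mul, mul_comm, mul_smul, h2]

lemma orb_three (hm : 1 ≤ m) (hm3 : Nat.Coprime m 3) {t : UnitAddCircle} (ht : m • t = 0)
    {ν : Measure UnitAddCircle} (h : mu 3 ν = ν) : mu 3 (orb m t ν) = orb m t ν := by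
  have hφ : 1 ≤ m.totient := Nat.totient_pos.2 hm
  unfold orb
  have e : mu 3 (((m.totient : ℝ≥0∞) * m.totient)⁻¹ •
      ∑ a ∈ Finset.range m.totient, ∑ b ∈ Finset.range m.totient, tr ((2 ^ a * 3 ^ b) • t) ν) =
      ((m.totient : ℝ≥0∞) * m.totient)⁻¹ •
      ∑ a ∈ Finset.range m.totient, ∑ b ∈ Finset.range m.totient, tr ((2 ^ a * 3 ^ (b + 1)) • t) ν := by
    have h1 : ∀ σ : Measure UnitAddCircle, mu 3 σ = σ.map (fun x : UnitAddCircle => 3 • x) := fun σ => rfl
    rw [h1, Measure.map_smul, map_sum_fin _ _ (meas_nsmul 3)]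
    congr 1
    refine Finset.sum_congr rfl fun a _ => ?_
    rw [map_sum_fin _ _ (meas_nsmul 3)]
    refine Finset.sum_congr rfl fun b _ => ?_
    rw [← h1, mu_tr, h, ← mul_smul]
    congr 2
    ring
  rw [e]
  congr 1
  refine Finset.sum_congr rfl fun a _ => ?_
  refine cyc hφ (fun b => tr ((2 ^ a * 3 ^ b) • t) ν) ?_
  have h2 := fix_pow (K := 1) hm3.symm ht
  rw [mul_one] at h2
  show tr ((2 ^ a * 3 ^ m.totient) • t) ν = tr ((2 ^ a * 3 ^ 0) • t) ν
  rw [pow_zero, mul_one, mul_smul, h2]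

lemma tors_smul {t : UnitAddCircle} (ht : m • t = 0) (k : ℕ) : m • k • t = 0 := by
  rw [smul_comm, ht, smul_zero]

/-- the orbit averages are ergodic -/
lemma orb_erg (hm : 1 ≤ m) (hm2 : Nat.Coprime m 2) (hm3 : Nat.Coprime m 3) {t : UnitAddCircle}
    (ht : m • t = 0) {ν : Measure UnitAddCircle} [IsProbabilityMeasure ν] (hν : TotErg ν)
    (h2 : mu 2 ν = ν) (h3 : mu 3 ν = ν) : JointlyErgodic 2 3 (orb m t ν) := by
  intro E hE hE2 hE3
  have hprob := orb_prob hm t ν
  have hφ : 1 ≤ m.totient := Nat.totient_pos.2 hm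
  have h0 : (m.totient : ℝ≥0∞) ≠ 0 := by
    have : m.totient ≠ 0 := by omega
    exact_mod_cast this
  have htt : (m.totient : ℝ≥0∞) ≠ ⊤ := ENNReal.natCast_ne_top _
  have i2 : ∀ s : UnitAddCircle, tr (2 • s) ν E = tr s ν E := by
    intro s
    have : tr (2 • s) ν = mu 2 (tr s ν) := by rw [mu_tr, h2]
    rw [this]
    show (tr s ν).map (fun x : UnitAddCircle => 2 • x) E = _
    rw [Measure.map_apply (meas_nsmul 2) hE, hE2]
  have i3 : ∀ s : UnitAddCircle, tr (3 • s) ν E = tr s ν E := by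
    intro s
    have : tr (3 • s) ν = mu 3 (tr s ν) := by rw [mu_tr, h3]
    rw [this]
    show (tr s ν).map (fun x : UnitAddCircle => 3 • x) E = _
    rw [Measure.map_apply (meas_nsmul 3) hE, hE3]
  have i4 : ∀ a b : ℕ, tr ((2 ^ a * 3 ^ b) • t) ν E = tr t ν E := by
    intro a b
    induction a with
    | zero =>
      induction b with
      | zero => simp
      | succ b ih =>
        rw [← ih, ← i3 ((2 ^ 0 * 3 ^ b) • t)]
        congr 2
        rw [← mul_smul]
        congr 1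
        ring
    | succ a ih =>
      rw [← ih, ← i2 ((2 ^ a * 3 ^ b) • t)]
      congr 2
      rw [← mul_smul]
      congr 1
      ring
  have hval : orb m t ν E = tr t ν E := by
    unfold orb
    rw [Measure.smul_apply, Measure.finsetSum_apply]
    have : ∀ a ∈ Finset.range m.totient, (∑ b ∈ Finset.range m.totient, tr ((2 ^ a * 3 ^ b) • t) ν) E =
        m.totient * tr t ν E := by
      intro a _
      rw [Measure.finsetSum_apply]
      simp only [i4, Finset.sum_const, Finset.card_range, nsmul_eq_mul]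
    rw [Finset.sum_congr rfl this, Finset.sum_const, Finset.card_range, nsmul_eq_mul, smul_eq_mul,
      ← mul_assoc, ← mul_assoc, mul_assoc (((m.totient : ℝ≥0∞) * m.totient)⁻¹),
      ENNReal.inv_mul_cancel (mul_ne_zero h0 h0) (ENNReal.mul_ne_top htt htt), one_mul]
  rw [hval]
  exact (hν.tr hm hm2 hm3 ht) 1 le_rfl E hE (by rw [pow_one]; exact hE2) (by rw [pow_one]; exact hE3)

/-- every ergodic lift is an orbit average -/
theorem all_lifts (hm : 1 ≤ m) (hm2 : Nat.Coprime m 2) (hm3 : Nat.Coprime m 3)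
    {ν ρ : Measure UnitAddCircle} [IsProbabilityMeasure ν] [IsProbabilityMeasure ρ] (hν : TotErg ν)
    (hν2 : mu 2 ν = ν) (hν3 : mu 3 ν = ν) (hρ2 : mu 2 ρ = ρ) (hρ3 : mu 3 ρ = ρ)
    (hρ : JointlyErgodic 2 3 ρ) (h : mu m ρ = mu m ν) :
    ∃ k < m, ρ = orb m (hh m 1 k) ν := by
  obtain ⟨k, hkm, hk⟩ := exists_not_sing hm h
  have ht : m • hh m 1 k = 0 := smul_hh_one hm k
  refine ⟨k, hkm, ?_⟩
  set t := hh m 1 k with ht'
  have hprob := orb_prob hm t ν
  have hφ : 1 ≤ m.totient := Nat.totient_pos.2 hm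
  have htt : (m.totient : ℝ≥0∞) ≠ ⊤ := ENNReal.natCast_ne_top _
  have hac : tr t ν ≪ orb m t ν := by
    unfold orb
    refine Measure.AbsolutelyContinuous.smul_right ?_
      (ENNReal.inv_ne_zero.2 (ENNReal.mul_ne_top htt htt))
    refine Measure.absolutelyContinuous_of_le ?_
    rw [Measure.le_iff]
    intro s hs
    rw [Measure.finsetSum_apply]
    refine le_trans ?_ (Finset.single_le_sum
      (f := fun a => (∑ b ∈ Finset.range m.totient, tr ((2 ^ a * 3 ^ b) • t) ν) s)
      (fun _ _ => zero_le) (Finset.mem_range.2 (by omega : 0 < m.totient)))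
    show _ ≤ (∑ b ∈ Finset.range m.totient, tr ((2 ^ 0 * 3 ^ b) • t) ν) s
    rw [Measure.finsetSum_apply]
    refine le_trans ?_ (Finset.single_le_sum
      (f := fun b => (tr ((2 ^ 0 * 3 ^ b) • t) ν) s)
      (fun _ _ => zero_le) (Finset.mem_range.2 (by omega : 0 < m.totient)))
    simp
  have i1 : Q70.Af.Inv 2 3 (orb m t ν) :=
    ⟨mp_iff.2 (orb_two hm hm2 ht hν2), mp_iff.2 (orb_three hm hm3 ht hν3)⟩
  have i2 : Q70.Af.Inv 2 3 ρ := ⟨mp_iff.2 hρ2, mp_iff.2 hρ3⟩
  rcases Q70.Af.je_eq_or_sing i1 i2 (orb_erg hm hm2 hm3 ht hν hν2 hν3) hρ with h1 | h1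
  · exact h1.symm
  · exact absurd (h1.mono_ac hac Measure.AbsolutelyContinuous.rfl) hk

lemma orb_mu (hm : 1 ≤ m) {t : UnitAddCircle} (ht : m • t = 0) (ν : Measure UnitAddCircle) :
    mu m (orb m t ν) = mu m ν := by
  have hφ : 1 ≤ m.totient := Nat.totient_pos.2 hm
  have h0 : (m.totient : ℝ≥0∞) ≠ 0 := by
    have : m.totient ≠ 0 := by omega
    exact_mod_cast this
  have htt : (m.totient : ℝ≥0∞) ≠ ⊤ := ENNReal.natCast_ne_top _
  have h1 : ∀ σ : Measure UnitAddCircle, mu m σ = σ.map (fun x : UnitAddCircle => m • x) := fun σ => rfl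
  unfold orb
  rw [h1, Measure.map_smul, map_sum_fin _ _ (meas_nsmul m)]
  have : ∀ a ∈ Finset.range m.totient,
      (∑ b ∈ Finset.range m.totient, tr ((2 ^ a * 3 ^ b) • t) ν).map (fun x : UnitAddCircle => m • x) =
        m.totient • mu m ν := by
    intro a _
    rw [map_sum_fin _ _ (meas_nsmul m)]
    have h3 : ∀ b ∈ Finset.range m.totient,
        (tr ((2 ^ a * 3 ^ b) • t) ν).map (fun x : UnitAddCircle => m • x) = mu m ν := by
      intro b _
      rw [← h1, mu_tr, tors_smul ht, tr_zero]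
    rw [Finset.sum_congr rfl h3, Finset.sum_const, Finset.card_range]
  rw [Finset.sum_congr rfl this, Finset.sum_const, Finset.card_range]
  ext s hs
  rw [Measure.smul_apply, Measure.smul_apply, Measure.smul_apply, nsmul_eq_mul, nsmul_eq_mul, smul_eq_mul,
    ← mul_assoc, ← mul_assoc, mul_assoc (((m.totient : ℝ≥0∞) * m.totient)⁻¹),
    ENNReal.inv_mul_cancel (mul_ne_zero h0 h0) (ENNReal.mul_ne_top htt htt), one_mul]

lemma fc_tr (t : UnitAddCircle) (ν : Measure UnitAddCircle) [IsProbabilityMeasure ν] (n : ℤ) :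
    ∫ x, (fourier n x : ℂ) ∂(tr t ν) = (fourier n t : ℂ) * ∫ x, (fourier n x : ℂ) ∂ν := by
  unfold tr
  rw [integral_map (measurable_add_const t).aemeasurable (map_continuous _).aestronglyMeasurable,
    ← integral_const_mul]
  refine integral_congr_ae (Eventually.of_forall fun x => ?_)
  show (fourier n (x + t) : ℂ) = (fourier n t : ℂ) * (fourier n x : ℂ)
  rw [fourier_apply, fourier_apply, fourier_apply, smul_add, AddCircle.toCircle_add, Circle.coe_mul]
  ring

lemma integrable_four (n : ℤ) (ν : Measure UnitAddCircle) [IsFiniteMeasure ν] :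
    Integrable (fun x : UnitAddCircle => (fourier n x : ℂ)) ν :=
  (map_continuous _).integrable_of_hasCompactSupport (HasCompactSupport.of_compactSpace _)

lemma fc_orb (t : UnitAddCircle) (ν : Measure UnitAddCircle) [IsProbabilityMeasure ν] (n : ℤ) :
    ∫ x, (fourier n x : ℂ) ∂(orb m t ν) = (∫ x, (fourier n x : ℂ) ∂ν) *
      (((m.totient : ℂ) * m.totient)⁻¹ * ∑ a ∈ Finset.range m.totient, ∑ b ∈ Finset.range m.totient,
        (fourier n ((2 ^ a * 3 ^ b) • t) : ℂ)) := by
  unfold orb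
  have hfin : ∀ a, IsFiniteMeasure (∑ b ∈ Finset.range m.totient, tr ((2 ^ a * 3 ^ b) • t) ν) :=
    fun a => inferInstance
  rw [integral_smul_measure, integral_finsetSum_measure fun a _ => integrable_four n _]
  have h1 : ∀ a ∈ Finset.range m.totient,
      ∫ x, (fourier n x : ℂ) ∂(∑ b ∈ Finset.range m.totient, tr ((2 ^ a * 3 ^ b) • t) ν) =
        (∑ b ∈ Finset.range m.totient, (fourier n ((2 ^ a * 3 ^ b) • t) : ℂ)) * ∫ x, (fourier n x : ℂ) ∂ν := by
    intro a _
    rw [integral_finsetSum_measure fun b _ => integrable_four n _, Finset.sum_mul]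
    exact Finset.sum_congr rfl fun b _ => fc_tr _ ν n
  rw [Finset.sum_congr rfl h1, ← Finset.sum_mul, ENNReal.toReal_inv, ENNReal.toReal_mul,
    ENNReal.toReal_natCast, Complex.real_smul]
  push_cast
  ring

end Pool.Agent.H50.UR
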