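import Pool.Agent.H50.UR.Lift

/-!
Unique roots of totally ergodic measures.
-/

set_option autoImplicit false

open MeasureTheory Filter Topology Set
open scoped ENNReal

namespace Pool.Agent.H50.UR

open Pool.Agent.W764.FB Pool.Agent.W764.SH Pool.Agent.H847R3.XpXq Pool.Agent.V11299.FG

lemma fix_pow {s m : ℕ} (hms : Nat.Coprime s m) {t : UnitAddCircle} (ht : m • t = 0) (K : ℕ) :
    (s ^ (m.totient * K)) • t = t := by
  refine Q70.Af.smul_fix ht ?_
  have := (Nat.ModEq.pow_totient hms).pow K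
  rwa [one_pow, ← pow_mul] at this

lemma TotErg.mu {ν : Measure UnitAddCircle} (h : TotErg ν) (k : ℕ) : TotErg (mu k ν) := by
  intro M hM E hE h2 h3
  unfold UR.mu
  rw [Measure.map_apply (meas_nsmul k) hE]
  refine h M hM _ (meas_nsmul k hE) ?_ ?_
  · ext x
    have e : k • (2 ^ M) • x = (2 ^ M) • k • x := smul_comm _ _ _
    show k • (2 ^ M) • x ∈ E ↔ k • x ∈ E
    rw [e, ← mem_preimage (f := fun x : UnitAddCircle => (2 ^ M) • x), h2]
  · ext x
    have e : k • (3 ^ M) • x = (3 ^ M) • k • x := smul_comm _ _ _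
    show k • (3 ^ M) • x ∈ E ↔ k • x ∈ E
    rw [e, ← mem_preimage (f := fun x : UnitAddCircle => (3 ^ M) • x), h3]

lemma TotErg.tr {ν : Measure UnitAddCircle} (h : TotErg ν) {m : ℕ} (hm : 1 ≤ m) (hm2 : Nat.Coprime m 2)
    (hm3 : Nat.Coprime m 3) {t : UnitAddCircle} (ht : m • t = 0) : TotErg (tr t ν) := by
  intro M hM E hE h2 h3
  unfold UR.tr
  rw [Measure.map_apply (measurable_add_const t) hE]
  have hφ : 1 ≤ m.totient := Nat.totient_pos.2 hm
  refine h (m.totient * M) (Nat.mul_pos hφ hM) _ (measurable_add_const t hE) ?_ ?_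
  · have h2' : (fun x : UnitAddCircle => (2 ^ (m.totient * M)) • x) ⁻¹' E = E := by
      rw [mul_comm, pow_mul]; exact pre_pow h2 _
    ext x
    have e : (2 ^ (m.totient * M)) • x + t = (2 ^ (m.totient * M)) • (x + t) := by
      rw [smul_add, fix_pow hm2.symm ht]
    show (2 ^ (m.totient * M)) • x + t ∈ E ↔ x + t ∈ E
    rw [e, ← mem_preimage (f := fun x : UnitAddCircle => (2 ^ (m.totient * M)) • x), h2']
  · have h3' : (fun x : UnitAddCircle => (3 ^ (m.totient * M)) • x) ⁻¹' E = E := by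
      rw [mul_comm, pow_mul]; exact pre_pow h3 _
    ext x
    have e : (3 ^ (m.totient * M)) • x + t = (3 ^ (m.totient * M)) • (x + t) := by
      rw [smul_add, fix_pow hm3.symm ht]
    show (3 ^ (m.totient * M)) • x + t ∈ E ↔ x + t ∈ E
    rw [e, ← mem_preimage (f := fun x : UnitAddCircle => (3 ^ (m.totient * M)) • x), h3']

/-- two totally ergodic lifts of one measure are translates of each other -/
lemma eq_translate {m : ℕ} (hm : 1 ≤ m) (hm2 : Nat.Coprime m 2) (hm3 : Nat.Coprime m 3)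
    {ν ρ : Measure UnitAddCircle} [IsProbabilityMeasure ν] [IsProbabilityMeasure ρ]
    (hν : TotErg ν) (hρ : TotErg ρ) {N : ℕ} (hN : 1 ≤ N) (hν2 : mu (2 ^ N) ν = ν)
    (hν3 : mu (3 ^ N) ν = ν) (hρ2 : mu (2 ^ N) ρ = ρ) (hρ3 : mu (3 ^ N) ρ = ρ)
    (h : mu m ρ = mu m ν) : ∃ t : UnitAddCircle, m • t = 0 ∧ ρ = tr t ν := by
  obtain ⟨k, -, hk⟩ := exists_not_sing hm h
  have ht : m • hh m 1 k = 0 := smul_hh_one hm k
  refine ⟨hh m 1 k, ht, ?_⟩
  set t := hh m 1 k with ht'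
  have hφ : 1 ≤ m.totient := Nat.totient_pos.2 hm
  have hK : 1 ≤ m.totient * N := Nat.mul_pos hφ hN
  have e2 : ∀ σ : Measure UnitAddCircle, ∀ s : ℕ, mu (s ^ N) σ = σ → mu (s ^ (m.totient * N)) σ = σ := by
    intro σ s hσ
    rw [mul_comm, pow_mul]
    exact mu_pow hσ _
  have i1 : Q70.Af.Inv (2 ^ (m.totient * N)) (3 ^ (m.totient * N)) (tr t ν) := by
    constructor
    · exact mp_iff.2 (by rw [mu_tr, fix_pow hm2.symm ht, e2 _ _ hν2])
    · exact mp_iff.2 (by rw [mu_tr, fix_pow hm3.symm ht, e2 _ _ hν3])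
  have i2 : Q70.Af.Inv (2 ^ (m.totient * N)) (3 ^ (m.totient * N)) ρ :=
    ⟨mp_iff.2 (e2 _ _ hρ2), mp_iff.2 (e2 _ _ hρ3)⟩
  rcases Q70.Af.je_eq_or_sing i1 i2 ((hν.tr hm hm2 hm3 ht) _ hK) (hρ _ hK) with h1 | h1
  · exact h1.symm
  · exact absurd h1 hk

/-- **Existence of a totally ergodic root.** -/
theorem exists_root {m : ℕ} (hm : 1 ≤ m) (hm2 : Nat.Coprime m 2) (hm3 : Nat.Coprime m 3)
    {μ : Measure UnitAddCircle} [IsProbabilityMeasure μ] (h2 : mu 2 μ = μ) (h3 : mu 3 μ = μ)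
    (hT : TotErg μ) : ∃ ν : Measure UnitAddCircle, IsProbabilityMeasure ν ∧ mu 2 ν = ν ∧ mu 3 ν = ν ∧
      TotErg ν ∧ mu m ν = μ := by
  obtain ⟨ν, N, hν1, hν2, hN, hνp, hνq, hνT⟩ := exists_lift hm hm2 hm3 h2 h3 hT
  have hpow : ∀ k s : ℕ, mu s ν = ν → mu s (mu k ν) = mu k ν := by
    intro k s hs
    rw [mu_comm, hs]
  obtain ⟨a, ha, hae⟩ := eq_translate hm hm2 hm3 hνT (hνT.mu 2) hN hνp hνq (hpow 2 _ hνp) (hpow 2 _ hνq)
    (by rw [mu_comm, hν2, h2])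
  obtain ⟨b, hb, hbe⟩ := eq_translate hm hm2 hm3 hνT (hνT.mu 3) hN hνp hνq (hpow 3 _ hνp) (hpow 3 _ hνq)
    (by rw [mu_comm, hν2, h3])
  -- the cocycle relation
  have e1 : mu 3 (mu 2 ν) = tr (3 • a + b) ν := by rw [hae, mu_tr, hbe, tr_tr]
  have e2 : mu 2 (mu 3 ν) = tr (2 • b + a) ν := by rw [hbe, mu_tr, hae, tr_tr]
  have e3 : tr (3 • a + b) ν = tr (2 • b + a) ν := by rw [← e1, ← e2, mu_comm]
  have e4 : tr (2 • a) ν = tr b ν := by
    apply tr_inj (t := a + b)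
    rw [tr_tr, tr_tr]
    have i1 : a + b + 2 • a = 3 • a + b := by
      rw [show (3 : ℕ) = 2 + 1 from rfl, add_smul, one_smul]; abel
    have i2 : a + b + b = 2 • b + a := by rw [two_smul]; abel
    rw [i1, i2, e3]
  refine ⟨tr (-a) ν, inferInstance, ?_, ?_, hνT.tr hm hm2 hm3 (by rw [smul_neg, ha, neg_zero]), ?_⟩
  · rw [mu_tr, hae, tr_tr]
    congr 1
    rw [smul_neg, two_smul]; abel
  · rw [mu_tr, hbe, tr_tr]
    apply tr_inj (t := 3 • a)
    rw [tr_tr, tr_tr]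
    have i1 : 3 • a + (3 • (-a) + b) = b := by rw [smul_neg]; abel
    have i2 : 3 • a + -a = 2 • a := by
      rw [show (3 : ℕ) = 2 + 1 from rfl, add_smul, one_smul]; abel
    rw [i1, i2, e4]
  · rw [mu_tr, smul_neg, ha, neg_zero, tr_zero, hν2]

/-- **Uniqueness of the totally ergodic root.** -/
theorem unique_root {m : ℕ} (hm : 1 ≤ m) (hm2 : Nat.Coprime m 2) (hm3 : Nat.Coprime m 3)
    {ν ρ : Measure UnitAddCircle} [IsProbabilityMeasure ν] [IsProbabilityMeasure ρ]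
    (hν : TotErg ν) (hρ : TotErg ρ) (hν2 : mu 2 ν = ν)
    (hν3 : mu 3 ν = ν) (hρ2 : mu 2 ρ = ρ) (hρ3 : mu 3 ρ = ρ)
    (h : mu m ρ = mu m ν) : ρ = ν := by
  obtain ⟨t, ht, hte⟩ := eq_translate hm hm2 hm3 hν hρ (N := 1) le_rfl (by rwa [pow_one]) (by rwa [pow_one])
    (by rwa [pow_one]) (by rwa [pow_one]) h
  have e1 : tr (2 • t) ν = tr t ν := by
    rw [← hte, ← hρ2, hte, mu_tr, hν2]
  have e2 : tr t ν = ν := by
    apply tr_inj (t := t)
    rw [tr_tr, ← two_smul ℕ t]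
    exact e1
  rw [hte, e2]

end Pool.Agent.H50.UR
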