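import Pool.Agent.H50.UR.Orb
import Pool.Agent.H50.Tr.Reg

/-!
Totally ergodic tracial states.
-/

set_option autoImplicit false

open MeasureTheory Filter Topology Set
open scoped ENNReal ComplexOrder

namespace Pool.Agent.H50.UR

open Pool.Agent.W763.Tr Pool.Agent.TH654.FC Pool.Agent.TH463.UQ
open Pool.Agent.V11299.FG Pool.Agent.V1194.TR Pool.Agent.H50.Tr

/-- `μ` is the spectral measure of `φ` at the translation `x ↦ x + 1` -/
def IsSpectral {G : Subgroup (Equiv.Perm ℚ)} (φ : G → ℂ) (μ : Measure UnitAddCircle) : Prop :=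
  ∀ (n : ℤ) (g : G), (∀ x : ℚ, (g : Equiv.Perm ℚ) x = x + n) → φ g = ∫ x, (fourier n x : ℂ) ∂μ

/-- the totally ergodic extreme tracial states: extreme, not conditionally finite-dimensional, with
totally ergodic spectral measure -/
def TE (G : Subgroup (Equiv.Perm ℚ)) : Set (G → ℂ) :=
  {φ | φ ∈ Set.extremePoints ℝ (Traces G) ∧ ¬ CondFinDim φ ∧
    ∃ μ : Measure UnitAddCircle, IsProbabilityMeasure μ ∧ IsSpectral φ μ ∧ TotErg μ}

lemma fc_mu (ν : Measure UnitAddCircle) (k : ℕ) (n : ℤ) :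
    ∫ x, (fourier n x : ℂ) ∂(mu k ν) = ∫ x, (fourier ((k : ℤ) * n) x : ℂ) ∂ν := fc_map ν k n

section

variable {s2 s3 t : Equiv.Perm ℚ} {G : Subgroup (Equiv.Perm ℚ)}

lemma trans_form (hs2 : ∀ x, s2 x = 2 * x) (hs3 : ∀ x, s3 x = 3 * x) (ht : ∀ x, t x = x + 1)
    (hG : G = Subgroup.closure {s2, s3, t}) {g : G} (hg : IsTranslation g) :
    ∃ (n : ℤ) (k : ℕ), ∀ x, (g : Equiv.Perm ℚ) x = x + n / 6 ^ k := by
  obtain ⟨r, hr⟩ := hg
  have hs : ∃ (a b : ℤ) (r : ℚ), Six r ∧ ∀ x, (g : Equiv.Perm ℚ) x = 2 ^ a * 3 ^ b * x + r :=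
    form hs2 hs3 ht g (by rw [← hG]; exact g.2)
  obtain ⟨a, b, r', ⟨n, k, hr'⟩, h⟩ := hs
  refine ⟨n, k, fun x => ?_⟩
  have h0 := h 0
  rw [hr 0, mul_zero, zero_add, zero_add] at h0
  rw [hr x, h0, hr']

lemma exists_trans (ht : ∀ x, t x = x + 1) (hG : G = Subgroup.closure {s2, s3, t}) (n : ℤ) :
    ∃ g : G, ∀ x : ℚ, (g : Equiv.Perm ℚ) x = x + n := by
  have mt : t ∈ G := by rw [hG]; exact Subgroup.subset_closure (by simp)
  have key : ∀ k : ℕ, ∃ g : G, ∀ x : ℚ, (g : Equiv.Perm ℚ) x = x + (k : ℤ) := by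
    intro k
    induction k with
    | zero => exact ⟨1, fun x => by simp⟩
    | succ k ih =>
      obtain ⟨g, hg⟩ := ih
      refine ⟨⟨t, mt⟩ * g, fun x => ?_⟩
      rw [Subgroup.coe_mul, Equiv.Perm.mul_apply, hg]
      show t (x + (k : ℤ)) = _
      rw [ht]
      push_cast
      ring
  rcases Int.eq_nat_or_neg n with ⟨k, rfl | rfl⟩
  · exact key k
  · obtain ⟨g, hg⟩ := key k
    refine ⟨g⁻¹, fun x => ?_⟩
    rw [Subgroup.coe_inv, Equiv.Perm.inv_eq_iff_eq, hg]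
    push_cast
    ring

/-- the measure of an extreme trace which is not conditionally finite-dimensional -/
theorem of_extreme (hs2 : ∀ x, s2 x = 2 * x) (hs3 : ∀ x, s3 x = 3 * x) (ht : ∀ x, t x = x + 1)
    (hG : G = Subgroup.closure {s2, s3, t}) {φ : G → ℂ}
    (hφ : φ ∈ Set.extremePoints ℝ (Traces G)) (hat : ¬ CondFinDim φ ∨
      ∀ (μ : Measure UnitAddCircle), IsSpectral φ μ → ∀ x, μ {x} = 0) :
    ∃ μ : Measure UnitAddCircle, IsProbabilityMeasure μ ∧ mu 2 μ = μ ∧ mu 3 μ = μ ∧ (∀ x, μ {x} = 0) ∧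
      JointlyErgodic 2 3 μ ∧ φ = Pool.Agent.Y253.TR.tr μ ∧ IsSpectral φ μ := by
  obtain ⟨h1, hcl, hpd⟩ := hφ.1
  obtain ⟨τ, S6, μ, D⟩ := data_of hs2 hs3 ht hG h1 hcl hpd
  have hprob := D.prob
  have hspec : IsSpectral φ μ := by
    intro n g hg
    have e : g = τ n := by
      apply Subtype.ext
      apply Equiv.ext
      intro x
      rw [hg, D.hτ]
    rw [e, D.hμ]
  have hat' : ∀ x, μ {x} = 0 := by
    rcases hat with hat | hat
    · rcases finite_or_atomless D hφ with hfin | h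
      · exact absurd hfin hat
      · exact h
    · exact hat μ hspec
  exact ⟨μ, hprob, mp_iff.1 D.mp2, mp_iff.1 D.mp3, hat', erg_of_extreme D hφ hat', eq_tr D hat', hspec⟩

lemma spectral_unique (ht : ∀ x, t x = x + 1) (hG : G = Subgroup.closure {s2, s3, t}) {φ : G → ℂ}
    {μ ν : Measure UnitAddCircle} [IsProbabilityMeasure μ] [IsProbabilityMeasure ν]
    (h : IsSpectral φ μ) (h' : IsSpectral φ ν) : μ = ν := by
  refine Pool.Agent.W764.FB.ext_fourier fun n => ?_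
  obtain ⟨g, hg⟩ := exists_trans ht hG n
  rw [← h n g hg, h' n g hg]

/-- the trace of an atomless jointly ergodic measure -/
theorem trace_of (hs2 : ∀ x, s2 x = 2 * x) (hs3 : ∀ x, s3 x = 3 * x) (ht : ∀ x, t x = x + 1)
    (hG : G = Subgroup.closure {s2, s3, t}) {μ : Measure UnitAddCircle} [IsProbabilityMeasure μ]
    (h2 : mu 2 μ = μ) (h3 : mu 3 μ = μ) (hat : ∀ x, μ {x} = 0) (he : JointlyErgodic 2 3 μ) :
    (Pool.Agent.Y253.TR.tr μ : G → ℂ) ∈ Set.extremePoints ℝ (Traces G) ∧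
      ¬ CondFinDim (Pool.Agent.Y253.TR.tr μ : G → ℂ) ∧
      IsSpectral (Pool.Agent.Y253.TR.tr μ : G → ℂ) μ ∧
      ∀ (n : ℤ) (k : ℕ) (g : G), (∀ x : ℚ, (g : Equiv.Perm ℚ) x = x + n / 6 ^ k) →
        (Pool.Agent.Y253.TR.tr μ : G → ℂ) g = ∫ x, (fourier n x : ℂ) ∂μ := by
  have hext := extreme_of_erg hs2 hs3 ht hG (mp_iff.2 h2) (mp_iff.2 h3) hat he
  have hval : ∀ (n : ℤ) (k : ℕ) (g : G), (∀ x : ℚ, (g : Equiv.Perm ℚ) x = x + n / 6 ^ k) →
      (Pool.Agent.Y253.TR.tr μ : G → ℂ) g = ∫ x, (fourier n x : ℂ) ∂μ := fun n k g hg =>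
    Pool.Agent.Y253.TR.tr_trans (mp_iff.2 h2) (mp_iff.2 h3) hg
  have hspec : IsSpectral (Pool.Agent.Y253.TR.tr μ : G → ℂ) μ := fun n g hg =>
    hval n 0 g fun x => by rw [hg]; simp
  refine ⟨hext, ?_, hspec, hval⟩
  intro hfd
  obtain ⟨g, hg⟩ := exists_trans ht hG 1
  obtain ⟨N, hN, hper⟩ := per_of_fd hs2 hs3 ht hG hext.1 hfd (g := g) ⟨1, fun x => by rw [hg]; simp⟩
  have hpow : ∀ (n : ℤ) x, ((g ^ n : G) : Equiv.Perm ℚ) x = x + n := by
    have hpowN : ∀ (n : ℕ) (x : ℚ), ((g ^ n : G) : Equiv.Perm ℚ) x = x + n := by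
      intro n
      induction n with
      | zero => intro x; simp
      | succ n ih =>
        intro x
        rw [pow_succ, Subgroup.coe_mul, Equiv.Perm.mul_apply, hg, ih]
        push_cast; ring
    intro n x
    rcases Int.eq_nat_or_neg n with ⟨k, rfl | rfl⟩
    · rw [zpow_natCast, hpowN]; push_cast; ring
    · rw [zpow_neg, zpow_natCast, Subgroup.coe_inv, Equiv.Perm.inv_eq_iff_eq, hpowN]
      push_cast; ring
  have hone : ∀ n : ℤ, ∫ x, (fourier ((N : ℤ) * n) x : ℂ) ∂μ = 1 := by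
    intro n
    have h4 := per_mul (f := fun k => (Pool.Agent.Y253.TR.tr μ : G → ℂ) (g ^ k)) hper 0 n
    simp only [zero_add, zpow_zero] at h4
    rw [hext.1.1] at h4
    rw [← h4]
    exact (hspec ((N : ℤ) * n) _ (hpow _)).symm
  have h5 : mu N μ = Measure.dirac 0 := by
    refine Pool.Agent.W764.FB.ext_fourier fun n => ?_
    have e1 : ∫ x, (fourier n x : ℂ) ∂(mu N μ) = 1 := by rw [fc_mu, hone]
    have e2 : ∫ x, (fourier n x : ℂ) ∂(Measure.dirac (0 : UnitAddCircle)) = 1 := by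
      rw [integral_dirac, fourier_eval_zero]
    exact e1.trans e2.symm
  have h6 : (mu N μ) {0} = 1 := by rw [h5]; simp
  unfold mu at h6
  rw [Measure.map_apply (meas_nsmul N) (measurableSet_singleton _)] at h6
  have h7 : μ ((fun x : UnitAddCircle => N • x) ⁻¹' {0}) = 0 := by
    have hfin : ((fun x : UnitAddCircle => N • x) ⁻¹' {0}).Finite := finite_fibre hN 0
    rw [← Set.biUnion_of_singleton ((fun x : UnitAddCircle => N • x) ⁻¹' {0})]
    exact (measure_biUnion_null_iff hfin.countable).2 fun y _ => hat y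
  rw [h7] at h6
  exact zero_ne_one h6

lemma je_of_te {μ : Measure UnitAddCircle} (h : TotErg μ) : JointlyErgodic 2 3 μ := by
  intro E hE h2 h3
  exact h 1 le_rfl E hE (by rw [pow_one]; exact h2) (by rw [pow_one]; exact h3)

lemma atomless_of_mu {m : ℕ} {μ ν : Measure UnitAddCircle} (h : mu m ν = μ) (hat : ∀ x, μ {x} = 0)
    (x : UnitAddCircle) : ν {x} = 0 := by
  have h1 : (mu m ν) {m • x} = 0 := by rw [h]; exact hat _
  unfold mu at h1
  rw [Measure.map_apply (meas_nsmul m) (measurableSet_singleton _)] at h1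
  exact measure_mono_null (fun z hz => by rw [mem_singleton_iff.1 hz]; rfl) h1

/-- the relation between the spectral measures of a trace and of its root -/
lemma mu_of_root (ht : ∀ x, t x = x + 1) (hG : G = Subgroup.closure {s2, s3, t}) {m : ℕ}
    {φ ψ : G → ℂ} {μ ν : Measure UnitAddCircle} [IsProbabilityMeasure μ] [IsProbabilityMeasure ν]
    (hμ : IsSpectral φ μ) (hν : IsSpectral ψ ν)
    (h : ∀ g : G, IsTranslation g → ψ (g ^ m) = φ g) : mu m ν = μ := by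
  refine Pool.Agent.W764.FB.ext_fourier fun n => ?_
  obtain ⟨g, hg⟩ := exists_trans ht hG n
  have hpow : ∀ (k : ℕ) x, ((g ^ k : G) : Equiv.Perm ℚ) x = x + ((k : ℤ) * n : ℤ) := by
    intro k
    induction k with
    | zero => intro x; simp
    | succ k ih =>
      intro x
      rw [pow_succ, Subgroup.coe_mul, Equiv.Perm.mul_apply, hg, ih]
      push_cast; ring
  have e1 : ∫ x, (fourier n x : ℂ) ∂(mu m ν) = φ g := by
    rw [fc_mu, ← h g ⟨n, hg⟩, ← hν ((m : ℤ) * n) (g ^ m) (hpow m)]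
  exact e1.trans (hμ n g hg)

/-- the converse -/
lemma root_of_mu (hs2 : ∀ x, s2 x = 2 * x) (hs3 : ∀ x, s3 x = 3 * x) (ht : ∀ x, t x = x + 1)
    (hG : G = Subgroup.closure {s2, s3, t}) {m : ℕ} {φ ψ : G → ℂ} {μ ν : Measure UnitAddCircle}
    (hφ : ∀ (n : ℤ) (k : ℕ) (g : G), (∀ x : ℚ, (g : Equiv.Perm ℚ) x = x + n / 6 ^ k) →
        φ g = ∫ x, (fourier n x : ℂ) ∂μ)
    (hψ : ∀ (n : ℤ) (k : ℕ) (g : G), (∀ x : ℚ, (g : Equiv.Perm ℚ) x = x + n / 6 ^ k) →
        ψ g = ∫ x, (fourier n x : ℂ) ∂ν) (h : mu m ν = μ) :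
    ∀ g : G, IsTranslation g → ψ (g ^ m) = φ g := by
  intro g hg
  obtain ⟨n, k, hnk⟩ := trans_form hs2 hs3 ht hG hg
  have hpow : ∀ (j : ℕ) x, ((g ^ j : G) : Equiv.Perm ℚ) x = x + ((j : ℤ) * n : ℤ) / 6 ^ k := by
    intro j
    induction j with
    | zero => intro x; simp
    | succ j ih =>
      intro x
      rw [pow_succ, Subgroup.coe_mul, Equiv.Perm.mul_apply, hnk, ih]
      push_cast; ring
  rw [hψ _ k _ (hpow m), hφ n k g hnk, ← h, fc_mu]

end

end Pool.Agent.H50.UR
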